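import Mathlib
import Pool.Agent.VSI.St
import Pool.Agent.VSI.StEq
import Pool.Agent.VSI.QX

/-!
# Deformations whose classes move in one direction become isotopies on cyclic coverings

The definitions are in `Pool/Agent/VSI/St.lean`.
-/

set_option maxSynthPendingDepth 3

open Set MeasureTheory

namespace Pool.Agent.Results.MP_469ed1_gt.DirectionalDeformation

open VSI.St

/-- Let `Ω` be a deformation through symplectic forms of the four-torus between two forms in the class `A`, such that
the classes of all `Ω t` agree with `A` on the coordinate hyperplane `j` (they differ from `A` by forms divisible by the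
`j`-th coordinate covector).  Then the pullbacks of the two forms to all coverings `x ↦ (n i * x i)` with `n j` large are
joined in their class; the other `n i` are arbitrary, so that cyclic coverings are enough. -/
theorem result (j : Fin 4) (A : Form) (Ω : ℝ → V → Form) (hs : SmoothFamily Ω)
    (hΩ : ∀ t ∈ Icc (0 : ℝ) 1, Symplectic (Ω t)) (h₀ : HasClass A (Ω 0)) (h₁ : HasClass A (Ω 1))
    (hk : ∀ t ∈ Icc (0 : ℝ) 1, ∀ u v : V, u j = 0 → v j = 0 →
      ∫ x in Icc (0 : V) 1, val (Ω t x) u v = val A u v) :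
    ∃ N : ℕ, ∀ n : Fin 4 → ℕ, (∀ i, 0 < n i) → N ≤ n j →
      JoinedIn (pullConst n A) (pull n (Ω 0)) (pull n (Ω 1)) := by
  have i0 : (0 : ℝ) ∈ Icc (0 : ℝ) 1 := left_mem_Icc.2 zero_le_one
  have i1 : (1 : ℝ) ∈ Icc (0 : ℝ) 1 := right_mem_Icc.2 zero_le_one
  obtain ⟨N, hN⟩ := VSI.directional j (ω₀ := Ω 0) (ω₁ := Ω 1)
    (VSI.st_sympIn.1 ⟨hΩ 0 i0, h₀⟩) (VSI.st_sympIn.1 ⟨hΩ 1 i1, h₁⟩) hs rfl rfl
    (fun t ht => VSI.st_symplectic.1 (hΩ t ht)) hk
  exact ⟨N, fun n hn hnj => VSI.st_joined.2 (hN n hn hnj)⟩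

end Pool.Agent.Results.MP_469ed1_gt.DirectionalDeformation
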