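import Mathlib
import Pool.Agent.VSI.StB
import Pool.Agent.VSI.StBEq

/-!
# Finiteness of isotopy classes of symplectic forms on the four-torus under bounds without derivatives

The definitions are in `Pool/Agent/VSI/St.lean` and `Pool/Agent/VSI/StB.lean`.
-/

set_option maxSynthPendingDepth 3

namespace Pool.Agent.Results.MP_469ed1_gt.FiniteComponents

open VSI.St

/-- For all bounds `Λ`, `c`, `h` there is a number `K` such that in every class `A` the symplectic forms on the
four-torus which are bounded by `Λ`, nondegenerate with margin `c` and at least `h` on some constant plane meet at most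
`K` path components of the space of symplectic forms in the class `A`: among any `K + 1` of them two are joined by a
smooth path of symplectic forms in the class `A`. -/
theorem result (Λ c h : ℝ) (hc : 0 < c) (hh : 0 < h) :
    ∃ K : ℕ, ∀ (A : Form) (ω : Fin (K + 1) → V → Form), (∀ i, Bounded A Λ c h (ω i)) →
      ∃ i j, i ≠ j ∧ JoinedIn A (ω i) (ω j) := by
  obtain ⟨K, hK⟩ := VSI.finiteness (Λ := Λ) hc hh
  refine ⟨K, fun A ω hω => ?_⟩
  obtain ⟨i, j, hij, hJ⟩ := hK A ω fun i => VSI.st_bounded (hω i)
  exact ⟨i, j, hij, VSI.st_joined.2 hJ⟩

end Pool.Agent.Results.MP_469ed1_gt.FiniteComponents
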