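import Mathlib
import Pool.Agent.VSI.StB
import Pool.Agent.VSI.StBEq

/-!
# A uniform covering degree for symplectic forms with bounds without derivatives

The definitions are in `Pool/Agent/VSI/St.lean` and `Pool/Agent/VSI/StB.lean`.
-/

set_option maxSynthPendingDepth 3

namespace Pool.Agent.Results.MP_469ed1_gt.UniformCovering

open VSI.St

/-- For all bounds `Λ`, `c`, `h` there is a number `N` such that for every class `A`, every symplectic form `ω` on the
four-torus in the class `A` which is bounded by `Λ`, nondegenerate with margin `c` and at least `h` on some constant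
plane, and every `n ≥ N`, the form `x ↦ ω (n x)` (which is `n⁻²` times the pullback of `ω` by the covering `x ↦ n x`)
is joined to the linear form `A` by a smooth path of symplectic forms in the class `A`. -/
theorem result (Λ c h : ℝ) (hc : 0 < c) (hh : 0 < h) :
    ∃ N : ℕ, ∀ (A : Form) (ω : V → Form), Bounded A Λ c h ω → ∀ n : ℕ, N ≤ n →
      JoinedIn A (fun x => ω ((n : ℝ) • x)) (fun _ => A) := by
  obtain ⟨N, hN⟩ := VSI.uniform_rep (Λ := Λ) hc hh
  exact ⟨N, fun A ω hω n hn => VSI.st_joined.2 (hN A ω (VSI.st_bounded hω) n hn)⟩

end Pool.Agent.Results.MP_469ed1_gt.UniformCovering
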