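import Mathlib
import Pool.Agent.VSI.St
import Pool.Agent.VSI.StEq

/-!
# Virtual isotopy of symplectic forms on the four-torus

The definitions are in `Pool/Agent/VSI/St.lean`; they are the ones of the frozen statement of the problem, split into
small named pieces: a symplectic form on the torus `ℝ⁴ / ℤ⁴` is a smooth, integer periodic, closed, nondegenerate
two-form on `ℝ⁴`; its class is its average over the unit cube.
-/

set_option maxSynthPendingDepth 3

namespace Pool.Agent.Results.MP_469ed1_gt.VirtualIsotopy

open VSI.St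

/-- Two symplectic forms on the four-torus in the same class `A`, each of which can be deformed through symplectic
forms (whose classes may vary) to one that is positive on some constant plane (for instance to a linear form), become
isotopic, through symplectic forms in a fixed class, to each other and to the linear form, after pullback to every
sufficiently large covering torus; only three of the four directions have to be large. -/
theorem result (A : Form) (ω₀ ω₁ : V → Form) (h₀ : SympIn A ω₀) (h₁ : SympIn A ω₁)
    (d₀ : ∃ η : V → Form, Deformable ω₀ η ∧ PlanePositive η)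
    (d₁ : ∃ η : V → Form, Deformable ω₁ η ∧ PlanePositive η) (i₀ : Fin 4) :
    ∃ N : ℕ, ∀ n : Fin 4 → ℕ, (∀ i, 0 < n i) → (∀ i, i ≠ i₀ → N ≤ n i) →
      JoinedIn (pullConst n A) (pull n ω₀) (pull n ω₁) ∧
      JoinedIn (pullConst n A) (pull n ω₀) (fun _ => pullConst n A) := by
  obtain ⟨η₀, e₀, p₀⟩ := d₀
  obtain ⟨η₁, e₁, p₁⟩ := d₁
  obtain ⟨N₀, H₀⟩ := VSI.main_cvr (VSI.st_sympIn.1 h₀) (VSI.st_deform.1 e₀) p₀ i₀
  obtain ⟨N₁, H₁⟩ := VSI.main_cvr (VSI.st_sympIn.1 h₁) (VSI.st_deform.1 e₁) p₁ i₀
  refine ⟨max N₀ N₁, fun n hn hN => ?_⟩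
  have f₀ := H₀ n hn fun i hi => (le_max_left _ _).trans (hN i hi)
  have f₁ := H₁ n hn fun i hi => (le_max_right _ _).trans (hN i hi)
  exact ⟨VSI.st_joined.2 (f₀.trans f₁.symm), VSI.st_joined.2 f₀⟩

end Pool.Agent.Results.MP_469ed1_gt.VirtualIsotopy
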